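import Mathlib

namespace Pool.Agent.H.MP_078bdc_al

abbrev W := List Bool
abbrev PW := Equiv.Perm W

def nodeF (c : Bool) (a0 a1 : W → W) : W → W
  | [] => []
  | false :: m => c :: a0 m
  | true :: m => (!c) :: a1 m

def node (c : Bool) (a0 a1 : PW) : PW where
  toFun := nodeF c a0 a1
  invFun := nodeF c (cond c a1⁻¹ a0⁻¹ : PW) (cond c a0⁻¹ a1⁻¹ : PW)
  left_inv := by
    intro w
    rcases w with _ | ⟨_ | _, m⟩ <;> cases c <;> simp [nodeF]
  right_inv := by
    intro w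
    rcases w with _ | ⟨_ | _, m⟩ <;> cases c <;> simp [nodeF]

@[simp] lemma node_nil (c : Bool) (a0 a1 : PW) : node c a0 a1 [] = [] := rfl
@[simp] lemma node_f (c : Bool) (a0 a1 : PW) (m : W) : node c a0 a1 (false :: m) = c :: a0 m := rfl
@[simp] lemma node_t (c : Bool) (a0 a1 : PW) (m : W) :
    node c a0 a1 (true :: m) = (!c) :: a1 m := rfl

@[simp] lemma node_mul_f (c : Bool) (a0 a1 b0 b1 : PW) :
    node c a0 a1 * node false b0 b1 = node c (a0 * b0) (a1 * b1) := by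
  ext1 w
  rcases w with _ | ⟨_ | _, m⟩ <;> simp

@[simp] lemma node_mul_t (c : Bool) (a0 a1 b0 b1 : PW) :
    node c a0 a1 * node true b0 b1 = node (!c) (a1 * b0) (a0 * b1) := by
  ext1 w
  rcases w with _ | ⟨_ | _, m⟩ <;> simp

lemma node_one : node false 1 1 = 1 := by
  ext1 w
  rcases w with _ | ⟨_ | _, m⟩ <;> simp

@[simp] lemma node_inv_f (a0 a1 : PW) : (node false a0 a1)⁻¹ = node false a0⁻¹ a1⁻¹ := by
  rw [inv_eq_iff_mul_eq_one]; simp [node_one]

@[simp] lemma node_inv_t (a0 a1 : PW) : (node true a0 a1)⁻¹ = node true a1⁻¹ a0⁻¹ := by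
  rw [inv_eq_iff_mul_eq_one]; simp [node_one]

def sF : W → W
  | [] => []
  | false :: m => true :: m
  | true :: m => false :: sF m

def sI : W → W
  | [] => []
  | true :: m => false :: m
  | false :: m => true :: sI m

def s : PW where
  toFun := sF
  invFun := sI
  left_inv := by
    intro w
    induction w with
    | nil => rfl
    | cons b m ih => cases b <;> simp [sF, sI, ih]
  right_inv := by
    intro w
    induction w with
    | nil => rfl
    | cons b m ih => cases b <;> simp [sF, sI, ih]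

lemma s_eq : s = node true 1 s := by
  ext1 w
  rcases w with _ | ⟨_ | _, m⟩ <;> rfl

def sig : PW := node true 1 1

def diag : PW →* PW where
  toFun a := node false a a
  map_one' := node_one
  map_mul' a b := by simp

lemma s_sq : s * s = node false s s := by
  conv_lhs => rw [s_eq]
  simp

lemma s_two (k : ℤ) : s ^ (2 * k) = node false (s ^ k) (s ^ k) := by
  rw [zpow_mul, zpow_two, s_sq]
  exact (map_zpow diag s k).symm

lemma s_zpow (t : ℤ) : ∃ c t0 t1, s ^ t = node c (s ^ (t0 : ℤ)) (s ^ (t1 : ℤ)) := by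
  rcases Int.even_or_odd' t with ⟨k, h | h⟩
  · exact ⟨false, k, k, by rw [h, s_two]⟩
  · refine ⟨true, k, k + 1, ?_⟩
    rw [h, zpow_add_one, s_two, zpow_add_one]
    conv_lhs => rw [s_eq]
    simp only [node_mul_t, Bool.not_false, mul_one]
    rw [← s_eq]

def InA : ℕ → PW → Prop
  | 0, a => ∃ t : ℤ, a = s ^ t
  | n + 1, a => ∃ c a0 a1, InA n a0 ∧ InA n a1 ∧ a = node c a0 a1

lemma InA.mul : ∀ {n : ℕ} {a b : PW}, InA n a → InA n b → InA n (a * b)
  | 0, _, _, ⟨t, ht⟩, ⟨u, hu⟩ => ⟨t + u, by rw [ht, hu, zpow_add]⟩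
  | n + 1, _, _, ⟨c, a0, a1, h0, h1, ha⟩, ⟨e, b0, b1, k0, k1, hb⟩ => by
    cases e
    · exact ⟨c, _, _, h0.mul k0, h1.mul k1, by rw [ha, hb]; simp⟩
    · exact ⟨!c, _, _, h1.mul k0, h0.mul k1, by rw [ha, hb]; simp⟩

lemma InA.inv : ∀ {n : ℕ} {a : PW}, InA n a → InA n a⁻¹
  | 0, _, ⟨t, ht⟩ => ⟨-t, by rw [ht, zpow_neg]⟩
  | n + 1, _, ⟨c, a0, a1, h0, h1, ha⟩ => by
    cases c
    · exact ⟨false, _, _, h0.inv, h1.inv, by rw [ha]; simp⟩
    · exact ⟨true, _, _, h1.inv, h0.inv, by rw [ha]; simp⟩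

lemma InA.succ : ∀ {n : ℕ} {a : PW}, InA n a → InA (n + 1) a
  | 0, _, ⟨t, ht⟩ => by
    obtain ⟨c, t0, t1, h⟩ := s_zpow t
    exact ⟨c, _, _, ⟨t0, rfl⟩, ⟨t1, rfl⟩, by rw [ht, h]⟩
  | n + 1, _, ⟨c, a0, a1, h0, h1, ha⟩ => ⟨c, _, _, h0.succ, h1.succ, ha⟩

lemma InA.mono {n m : ℕ} {a : PW} (h : InA n a) (hnm : n ≤ m) : InA m a := by
  induction hnm with
  | refl => exact h
  | step _ ih => exact ih.succ

lemma inA_zpow (n : ℕ) (t : ℤ) : InA n (s ^ t) := InA.mono (n := 0) ⟨t, rfl⟩ (Nat.zero_le n)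
lemma inA_one (n : ℕ) : InA n 1 := by simpa using inA_zpow n 0
lemma inA_s (n : ℕ) : InA n s := by simpa using inA_zpow n 1

def A : Subgroup PW where
  carrier := {a | ∃ n, InA n a}
  one_mem' := ⟨0, inA_one 0⟩
  mul_mem' := by
    rintro a b ⟨n, ha⟩ ⟨m, hb⟩
    exact ⟨max n m, (ha.mono (le_max_left _ _)).mul (hb.mono (le_max_right _ _))⟩
  inv_mem' := by
    rintro a ⟨n, ha⟩
    exact ⟨n, ha.inv⟩

lemma comm_pow : ∀ {n : ℕ} {a : PW}, InA n a → Commute a (s ^ ((2 : ℤ) ^ n))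
  | 0, _, ⟨t, ht⟩ => by rw [ht]; exact (Commute.refl s).zpow_zpow _ _
  | n + 1, _, ⟨c, a0, a1, h0, h1, ha⟩ => by
    have e0 := (comm_pow h0).eq
    have e1 := (comm_pow h1).eq
    rw [ha, pow_succ', s_two]
    unfold Commute SemiconjBy
    cases c <;> simp [e0, e1]

lemma count {D Q : Type*} [Group D] [Group Q] (f p1 p2 : D →* Q) [Finite p1.range]
    [Finite f.range] (h1 : p2.range ≤ f.range) (h2 : p1.ker ⊓ f.ker = p1.ker ⊓ p2.ker)
    (h3 : p2.ker.map p1 ≤ f.ker.map p1) : f.ker.map p1 ≤ p2.ker.map p1 := by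
  have e : ∀ g : D →* Q, (p1.ker ⊓ g.ker).index = Nat.card (g.ker.map p1) * Nat.card g.range := by
    intro g
    rw [← Subgroup.relIndex_mul_index (inf_le_right : p1.ker ⊓ g.ker ≤ g.ker),
      Subgroup.inf_relIndex_right, Subgroup.relIndex_ker, Subgroup.index_ker]
  have hfin : Finite (f.ker.map p1) :=
    Finite.Set.subset (p1.range : Set Q) (Subgroup.map_le_range p1 _)
  have c1 : Nat.card p2.range ≤ Nat.card f.range := Subgroup.card_le_of_le h1
  have c2 : 0 < Nat.card f.range := Nat.card_pos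
  have e1 := e f
  have e2 := e p2
  rw [h2, e2] at e1
  have c3 : Nat.card (f.ker.map p1) ≤ Nat.card (p2.ker.map p1) := by
    by_contra hc
    push Not at hc
    have : Nat.card (p2.ker.map p1) * Nat.card p2.range <
        Nat.card (f.ker.map p1) * Nat.card f.range :=
      lt_of_le_of_lt (Nat.mul_le_mul_left _ c1) (Nat.mul_lt_mul_of_pos_right hc c2)
    omega
  exact (Subgroup.eq_of_le_of_card_ge h3 c3).ge

section LemA
variable {L : Subgroup PW}

lemma rgt_iff (hl : ∀ a, node false a 1 ∈ L ↔ a ∈ L) {m : ℕ} (hs : s ^ ((2 : ℤ) ^ m) ∈ L)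
    (a : PW) : node false 1 a ∈ L ↔ a ∈ L := by
  have it : ∀ (k : ℕ) (y : PW), (fun y => node false y 1)^[k] y ∈ L ↔ y ∈ L := by
    intro k
    induction k with
    | zero => intro y; rfl
    | succ k ih => intro y; rw [Function.iterate_succ_apply', hl, ih]
  have cj : ∀ k : ℕ, s ^ ((2 : ℤ) ^ k) * (fun y => node false y 1)^[k] (node false a 1) *
      (s ^ ((2 : ℤ) ^ k))⁻¹ = (fun y => node false y 1)^[k] (node false 1 a) := by
    intro k
    induction k with
    | zero =>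
      simp only [pow_zero, zpow_one, Function.iterate_zero, id]
      rw [s_eq]; simp
    | succ k ih =>
      rw [Function.iterate_succ_apply', Function.iterate_succ_apply', pow_succ', s_two, ← ih]
      simp
  rw [← it m, ← cj m, ← hl a, ← it m (node false a 1)]
  constructor
  · intro h
    have := L.mul_mem (L.mul_mem (L.inv_mem hs) h) hs
    simpa [mul_assoc] using this
  · intro h
    exact L.mul_mem (L.mul_mem hs h) (L.inv_mem hs)

lemma fin_cover (hl : ∀ a, node false a 1 ∈ L ↔ a ∈ L) (hr : ∀ a, node false 1 a ∈ L ↔ a ∈ L)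
    {m : ℕ} (hs : s ^ ((2 : ℤ) ^ m) ∈ L) (n : ℕ) :
    ∃ F : Set PW, F.Finite ∧ ∀ a, InA n a → ∃ y ∈ F, y⁻¹ * a ∈ L := by
  induction n with
  | zero =>
    refine ⟨(fun t : ℤ => s ^ t) '' Set.Ico 0 (2 ^ m), (Set.finite_Ico _ _).image _, ?_⟩
    rintro a ⟨t, rfl⟩
    have hp : (0 : ℤ) < 2 ^ m := by positivity
    refine ⟨s ^ (t % 2 ^ m), ⟨_, ⟨Int.emod_nonneg _ hp.ne', Int.emod_lt_of_pos _ hp⟩, rfl⟩, ?_⟩
    rw [← zpow_neg, ← zpow_add]
    have : -(t % 2 ^ m) + t = 2 ^ m * (t / 2 ^ m) := by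
      have := Int.mul_ediv_add_emod t (2 ^ m); linarith
    rw [this, zpow_mul]
    exact L.zpow_mem hs _
  | succ n ih =>
    obtain ⟨F, hF, h⟩ := ih
    refine ⟨(fun p : Bool × PW × PW => node p.1 p.2.1 p.2.2) '' (Set.univ ×ˢ F ×ˢ F),
      (Set.finite_univ.prod (hF.prod hF)).image _, ?_⟩
    rintro a ⟨c, a0, a1, h0, h1, rfl⟩
    obtain ⟨y0, hy0, k0⟩ := h a0 h0
    obtain ⟨y1, hy1, k1⟩ := h a1 h1
    refine ⟨node c y0 y1, ⟨(c, y0, y1), ⟨trivial, hy0, hy1⟩, rfl⟩, ?_⟩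
    have := L.mul_mem ((hl _).2 k0) ((hr _).2 k1)
    cases c <;> simpa using this

lemma key (hl : ∀ a, node false a 1 ∈ L ↔ a ∈ L) (hr : ∀ a, node false 1 a ∈ L ↔ a ∈ L)
    {m : ℕ} (hs : s ^ ((2 : ℤ) ^ m) ∈ L) {n : ℕ} {x : PW} (hx : InA n x)
    (hz : node true x x⁻¹ ∈ L) {b0 b1 : PW} (h0 : InA n b0) (h1 : InA n b1)
    (hb : node true b0 b1 ∈ L) : b0 * b1 ∈ L := by
  set N : Subgroup PW := Subgroup.normalizer (L : Set PW) with hN
  have hLN : L ≤ N := Subgroup.le_normalizer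
  have sec0 : ∀ r0 r1, node false r0 r1 ∈ N → r0 ∈ N := by
    intro r0 r1 h
    rw [Subgroup.mem_normalizer_iff] at h ⊢
    intro a
    rw [← hl a, h, ← hl (r0 * a * r0⁻¹)]; simp
  have sec1 : ∀ r0 r1, node false r0 r1 ∈ N → r1 ∈ N := by
    intro r0 r1 h
    rw [Subgroup.mem_normalizer_iff] at h ⊢
    intro a
    rw [← hr a, h, ← hr (r1 * a * r1⁻¹)]; simp
  let D : Subgroup (PW × PW) :=
    { carrier := {p | node false p.1 p.2 ∈ N ∧ InA n p.1 ∧ InA n p.2}
      one_mem' := ⟨by simp [node_one], inA_one n, inA_one n⟩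
      mul_mem' := fun {p q} hp hq =>
        ⟨by simpa using N.mul_mem hp.1 hq.1, hp.2.1.mul hq.2.1, hp.2.2.mul hq.2.2⟩
      inv_mem' := fun {p} hp => ⟨by simpa using N.inv_mem hp.1, hp.2.1.inv, hp.2.2.inv⟩ }
  let π : N →* N ⧸ L.subgroupOf N := QuotientGroup.mk' _
  have hπ : ∀ r : N, π r = 1 ↔ (r : PW) ∈ L := by
    intro r
    simp [π, QuotientGroup.eq_one_iff, Subgroup.mem_subgroupOf]
  have hπe : ∀ r r' : N, π r = π r' ↔ (r : PW)⁻¹ * r' ∈ L := by
    intro r r'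
    rw [← inv_mul_eq_one, ← map_inv, ← map_mul, hπ]; simp
  let f0 : D →* N :=
    { toFun := fun d => ⟨node false d.1.1 d.1.2, d.2.1⟩
      map_one' := Subtype.ext node_one
      map_mul' := fun p q => Subtype.ext (by simp) }
  let q0 : D →* N :=
    { toFun := fun d => ⟨d.1.1, sec0 _ _ d.2.1⟩
      map_one' := rfl
      map_mul' := fun p q => rfl }
  let q1 : D →* N :=
    { toFun := fun d => ⟨d.1.2, sec1 _ _ d.2.1⟩
      map_one' := rfl
      map_mul' := fun p q => rfl }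
  have finI : ∀ k : ℕ, (π '' {r : N | InA k r}).Finite := by
    intro k
    obtain ⟨F, hF, h⟩ := fin_cover hl hr hs k
    have : π '' {r : N | InA k r} ⊆ π '' (Subtype.val ⁻¹' F) := by
      rintro _ ⟨r, hr', rfl⟩
      obtain ⟨y, hy, hy'⟩ := h r hr'
      have hyN : y ∈ N := by
        have := N.mul_mem r.2 (N.inv_mem (hLN hy'))
        simpa using this
      exact ⟨⟨y, hyN⟩, hy, (hπe _ _).2 hy'⟩
    exact ((hF.preimage Subtype.val_injective.injOn).image _).subset this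
  have : Finite (π.comp q0).range := by
    refine Set.Finite.subset (finI n) ?_
    rintro _ ⟨d, rfl⟩
    exact ⟨q0 d, d.2.2.1, rfl⟩
  have : Finite (π.comp f0).range := by
    refine Set.Finite.subset (finI (n + 1)) ?_
    rintro _ ⟨d, rfl⟩
    exact ⟨f0 d, ⟨false, _, _, d.2.2.1, d.2.2.2, rfl⟩, rfl⟩
  have kf : ∀ d : D, d ∈ (π.comp f0).ker ↔ node false d.1.1 d.1.2 ∈ L := fun d => hπ _
  have k0 : ∀ d : D, d ∈ (π.comp q0).ker ↔ d.1.1 ∈ L := fun d => hπ _
  have k1 : ∀ d : D, d ∈ (π.comp q1).ker ↔ d.1.2 ∈ L := fun d => hπ _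
  -- a in D' gives the pair
  have pair : ∀ a, node false a 1 ∈ N → node false a⁻¹ (x * a * x⁻¹) ∈ L := by
    intro a ha
    have h2 := (Subgroup.mem_normalizer_iff.1 (N.inv_mem ha) _).1 hz
    have h3 := L.mul_mem hz h2
    have h4 := L.inv_mem h3
    have h5 := (Subgroup.mem_normalizer_iff.1 ha _).1 (L.inv_mem hz)
    have h6 := L.mul_mem hz h5
    simpa [mul_assoc] using h6
  have hc := count (π.comp f0) (π.comp q0) (π.comp q1) ?_ ?_ ?_
  · have hbz := L.mul_mem hb hz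
    simp only [node_mul_t, Bool.not_true] at hbz
    let d : D := ⟨(b1 * x, b0 * x⁻¹), hLN hbz, h1.mul hx, h0.mul hx.inv⟩
    obtain ⟨d', hd', he⟩ := hc ⟨d, (kf d).2 hbz, rfl⟩
    have e1 : d'.1.1⁻¹ * (b1 * x) ∈ L := (hπe _ _).1 he
    have e2 : d'.1.2 ∈ L := (k1 d').1 hd'
    have e3 : node false (b1 * x) 1 ∈ N := by
      have := N.mul_mem (N.mul_mem d'.2.1 (hLN ((hl _).2 e1))) (hLN ((hr _).2 (L.inv_mem e2)))
      simpa using this
    have e4 := L.mul_mem hbz (pair _ e3)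
    simp only [node_mul_f, mul_inv_cancel] at e4
    have := (hr _).1 e4
    simpa [mul_assoc] using this
  · rintro _ ⟨d, rfl⟩
    obtain ⟨c, r0, r1, g0, g1, hr'⟩ := d.2.2.2.succ
    have hrN : node c r0 r1 ∈ N := hr' ▸ sec1 _ _ d.2.1
    cases c
    · refine ⟨⟨(r0, r1), hrN, g0, g1⟩, ?_⟩
      exact congrArg π (Subtype.ext hr'.symm)
    · have := N.mul_mem hrN (hLN hz)
      simp only [node_mul_t, Bool.not_true] at this
      refine ⟨⟨(r1 * x, r0 * x⁻¹), this, g1.mul hx, g0.mul hx.inv⟩, ?_⟩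
      refine (hπe _ _).2 ?_
      change (node false (r1 * x) (r0 * x⁻¹))⁻¹ * d.1.2 ∈ L
      rw [hr']
      simpa [mul_assoc] using hz
  · ext d
    simp only [Subgroup.mem_inf, kf, k0, k1]
    refine and_congr_right fun ha => ?_
    rw [← hr d.1.2]
    constructor
    · intro h
      simpa using L.mul_mem ((hl _).2 (L.inv_mem ha)) h
    · intro h
      simpa using L.mul_mem ((hl _).2 ha) h
  · rintro _ ⟨d, hd, rfl⟩
    have e2 : d.1.2 ∈ L := (k1 d).1 hd
    have e3 : node false d.1.1⁻¹ 1 ∈ N := by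
      have := N.inv_mem (N.mul_mem d.2.1 (hLN ((hr _).2 (L.inv_mem e2))))
      simpa using this
    have e4 := pair _ e3
    rw [inv_inv] at e4
    exact ⟨⟨(d.1.1, x * d.1.1⁻¹ * x⁻¹), hLN e4, d.2.2.1, (hx.mul d.2.2.1.inv).mul hx.inv⟩,
      (kf _).2 e4, rfl⟩

theorem lemA (hl : ∀ a, node false a 1 ∈ L ↔ a ∈ L) {a b : PW} (ha : a ∈ A) (hb : b ∈ A)
    (hsa : a * s * a⁻¹ ∈ L) (hsb : b * sig * b⁻¹ ∈ L) : A ≤ L := by
  obtain ⟨m, ha⟩ := ha
  obtain ⟨k, hb⟩ := hb
  have hs : s ^ ((2 : ℤ) ^ m) ∈ L := by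
    have := L.zpow_mem hsa ((2 : ℤ) ^ m)
    rw [conj_zpow, (comm_pow ha).eq] at this
    simpa using this
  have hr := rgt_iff hl hs
  obtain ⟨x, hx, hz⟩ : ∃ x, InA k x ∧ node true x x⁻¹ ∈ L := by
    obtain ⟨c, b0, b1, g0, g1, rfl⟩ := hb.succ
    cases c
    · exact ⟨b1 * b0⁻¹, g1.mul g0.inv, by simpa [sig] using hsb⟩
    · exact ⟨b0 * b1⁻¹, g0.mul g1.inv, by simpa [sig] using hsb⟩
  have hsL : s ∈ L := by
    clear hs
    have hs' := hr
    have hs : ∃ m : ℕ, s ^ ((2 : ℤ) ^ m) ∈ L := by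
      refine ⟨m, ?_⟩
      have := L.zpow_mem hsa ((2 : ℤ) ^ m)
      rw [conj_zpow, (comm_pow ha).eq] at this
      simpa using this
    obtain ⟨m', hs⟩ := hs
    induction m generalizing a with
    | zero =>
      obtain ⟨t, rfl⟩ := ha
      have : s ^ t * s * (s ^ t)⁻¹ = s := by group
      rwa [this] at hsa
    | succ m ih =>
      obtain ⟨c, a0, a1, g0, g1, rfl⟩ := ha
      have g0' := g0.mono (le_max_left m k)
      have g1' := g1.mono (le_max_left m k)
      have hx' := hx.mono (le_max_right m k)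
      have hs1 := inA_s (max m k)
      rw [s_eq] at hsa
      cases c
      · simp only [node_mul_t, node_mul_f, node_inv_f, Bool.not_false, mul_one] at hsa
        have := key hl hr hs hx' hz (g1'.mul g0'.inv) ((g0'.mul hs1).mul g1'.inv) hsa
        exact ih (by simpa [mul_assoc] using this) g1
      · simp only [node_mul_t, node_inv_t, Bool.not_false, Bool.not_true, mul_one] at hsa
        have := key hl hr hs hx' hz ((g0'.mul hs1).mul g1'.inv) (g1'.mul g0'.inv) hsa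
        exact ih (by simpa [mul_assoc] using this) g0
  have hsig : node true 1 1 ∈ L := by
    have := L.mul_mem hsL (L.inv_mem ((hr s).2 hsL))
    rw [s_eq] at this
    simp only [node_inv_f, node_mul_f, inv_one, mul_one] at this
    rw [← s_eq] at this
    simpa using this
  rintro y ⟨n, hy⟩
  induction n generalizing y with
  | zero =>
    obtain ⟨t, rfl⟩ := hy
    exact L.zpow_mem hsL t
  | succ n ih =>
    obtain ⟨c, a0, a1, g0, g1, rfl⟩ := hy
    have := L.mul_mem ((hl _).2 (ih g0)) ((hr _).2 (ih g1))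
    cases c
    · simpa using this
    · simpa using L.mul_mem hsig this

end LemA

end Pool.Agent.H.MP_078bdc_al
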