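import Pool.Agent.H.MP_078bdc_al.A

namespace Pool.Agent.H.MP_078bdc_al

def cp : W → W → ℕ
  | a :: l, b :: m => if a = b then cp l m + 1 else 0
  | _, _ => 0

@[simp] lemma cp_nil_l (m : W) : cp [] m = 0 := by cases m <;> rfl
@[simp] lemma cp_nil_r (m : W) : cp m [] = 0 := by cases m <;> rfl
@[simp] lemma cp_cons (a b : Bool) (l m : W) :
    cp (a :: l) (b :: m) = if a = b then cp l m + 1 else 0 := rfl

@[simp] lemma cp_self (l : W) : cp l l = l.length := by
  induction l with
  | nil => rfl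
  | cons a l ih => simp [ih]

lemma cp_comm : ∀ l m : W, cp l m = cp m l
  | [], m => by simp
  | _ :: _, [] => by simp
  | a :: l, b :: m => by simp [cp_comm l m, eq_comm]

lemma cp_le : ∀ l m : W, cp l m ≤ l.length
  | [], m => by simp
  | _ :: _, [] => by simp
  | a :: l, b :: m => by
    have := cp_le l m
    simp only [cp_cons, List.length_cons]
    split_ifs <;> omega

lemma cp_ultra : ∀ l m k : W, min (cp l m) (cp m k) ≤ cp l k
  | [], m, k => by simp
  | _ :: _, [], k => by simp
  | _ :: _, _ :: _, [] => by simp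
  | a :: l, b :: m, c :: k => by
    have := cp_ultra l m k
    simp only [cp_cons]
    split_ifs with h1 h2 h3 <;> first | omega | exact absurd (h1.trans h2) h3

lemma cp_take : ∀ l m : W, cp l m = l.length → l = m.take l.length
  | [], m, _ => by simp
  | _ :: _, [], h => by simp at h
  | a :: l, b :: m, h => by
    simp only [cp_cons, List.length_cons] at h
    split_ifs at h with h1
    have := cp_take l m (by omega)
    simp [h1, ← this]

def RI : Subgroup PW where
  carrier := {a | (∀ l, (a l).length = l.length) ∧ ∀ l m, cp (a l) (a m) = cp l m}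
  one_mem' := ⟨fun _ => rfl, fun _ _ => rfl⟩
  mul_mem' := fun {a b} ha hb =>
    ⟨fun l => by simp [ha.1, hb.1], fun l m => by simp [ha.2, hb.2]⟩
  inv_mem' := fun {a} ha =>
    ⟨fun l => by rw [← ha.1]; simp, fun l m => by rw [← ha.2]; simp⟩

lemma node_RI (c : Bool) {a0 a1 : PW} (h0 : a0 ∈ RI) (h1 : a1 ∈ RI) : node c a0 a1 ∈ RI := by
  constructor
  · intro l
    rcases l with _ | ⟨_ | _, l⟩ <;> simp [h0.1, h1.1]
  · intro l m
    rcases l with _ | ⟨_ | _, l⟩ <;> rcases m with _ | ⟨_ | _, m⟩ <;> simp [h0.2, h1.2]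

lemma s_RI : s ∈ RI := by
  constructor
  · intro l
    change (sF l).length = _
    induction l with
    | nil => rfl
    | cons b l ih => cases b <;> simp [sF, ih]
  · intro l
    change ∀ m, cp (sF l) (sF m) = _
    induction l with
    | nil => intro m; simp [sF]
    | cons b l ih =>
      intro m
      rcases m with _ | ⟨_ | _, m⟩ <;> cases b <;> simp [sF, ih]

lemma InA.ri : ∀ {n : ℕ} {a : PW}, InA n a → a ∈ RI
  | 0, _, ⟨t, ht⟩ => ht ▸ RI.zpow_mem s_RI t
  | _ + 1, _, ⟨c, _, _, h0, h1, ha⟩ => ha ▸ node_RI c h0.ri h1.ri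

lemma RI_nil {a : PW} (h : a ∈ RI) : a [] = [] := List.length_eq_zero_iff.1 (h.1 [])

lemma s_sec : ∀ (l : W) (t : ℤ), ∃ u : ℤ, ∀ m, (s ^ t) (l ++ m) = (s ^ t) l ++ (s ^ u) m
  | [], t => ⟨t, fun m => by simp [RI_nil (RI.zpow_mem s_RI t)]⟩
  | b :: l, t => by
    obtain ⟨c, t0, t1, h⟩ := s_zpow t
    cases b
    · obtain ⟨u, hu⟩ := s_sec l t0
      exact ⟨u, fun m => by rw [h]; simp [hu]⟩
    · obtain ⟨u, hu⟩ := s_sec l t1
      exact ⟨u, fun m => by rw [h]; simp [hu]⟩

lemma InA.sec : ∀ {n : ℕ} {a : PW}, InA n a → ∀ l : W, n ≤ l.length →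
    ∃ u : ℤ, ∀ m, a (l ++ m) = a l ++ (s ^ u) m
  | 0, _, ⟨t, ht⟩, l, _ => ht ▸ s_sec l t
  | _ + 1, _, _, [], h => by simp at h
  | n + 1, _, ⟨c, a0, a1, h0, h1, ha⟩, b :: l, h => by
    have h' : n ≤ l.length := by simpa using h
    cases b
    · obtain ⟨u, hu⟩ := h0.sec l h'
      exact ⟨u, fun m => by rw [ha]; simp [hu]⟩
    · obtain ⟨u, hu⟩ := h1.sec l h'
      exact ⟨u, fun m => by rw [ha]; simp [hu]⟩

lemma RI_sec {φ : PW} (h : φ ∈ RI) (b : Bool) :
    ∃ c, ∃ a ∈ RI, ∀ m, φ (b :: m) = c :: a m := by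
  obtain ⟨c, hc⟩ : ∃ c, φ [b] = [c] := List.length_eq_one_iff.1 (h.1 [b])
  have e : ∀ m, φ (b :: m) = c :: (φ (b :: m)).tail := by
    intro m
    have h1 := h.2 (b :: m) [b]
    rw [hc] at h1
    rcases h2 : φ (b :: m) with _ | ⟨x, r⟩
    · simp [h2] at h1
    · rw [h2] at h1
      by_cases h3 : x = c
      · simp [h3]
      · simp [h3] at h1
  have bij : Function.Bijective fun m => (φ (b :: m)).tail := by
    constructor
    · intro m m' hm
      have : φ (b :: m) = φ (b :: m') := by rw [e m, e m']; exact congrArg _ hm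
      simpa using φ.injective this
    · intro m'
      obtain ⟨y, hy⟩ := φ.surjective (c :: m')
      have h1 := h.2 y [b]
      rw [hy, hc] at h1
      rcases y with _ | ⟨x, r⟩
      · simp at h1
      · by_cases h3 : x = b
        · exact ⟨r, by simp [← h3, hy]⟩
        · simp [h3] at h1
  refine ⟨c, Equiv.ofBijective _ bij, ⟨fun l => ?_, fun l m => ?_⟩, e⟩
  · simp [h.1]
  · have := h.2 (b :: l) (b :: m)
    rw [e l, e m] at this
    simpa using this

lemma RI_dec {φ : PW} (h : φ ∈ RI) : ∃ c a0 a1, a0 ∈ RI ∧ a1 ∈ RI ∧ φ = node c a0 a1 := by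
  obtain ⟨c0, a0, h0, e0⟩ := RI_sec h false
  obtain ⟨c1, a1, h1, e1⟩ := RI_sec h true
  have : c1 = !c0 := by
    have := h.2 [false] [true]
    rw [e0, e1] at this
    cases c0 <;> cases c1 <;> simp at this ⊢
  refine ⟨c0, a0, a1, h0, h1, ?_⟩
  ext1 w
  rcases w with _ | ⟨_ | _, m⟩
  · simp [RI_nil h]
  · simp [e0]
  · simp [e1, this]

lemma inA_of : ∀ (n : ℕ) {φ : PW}, φ ∈ RI →
    (∀ l : W, l.length = n → ∃ u : ℤ, ∀ m, φ (l ++ m) = φ l ++ (s ^ u) m) → InA n φ
  | 0, φ, h, k => by
    obtain ⟨u, hu⟩ := k [] rfl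
    exact ⟨u, by ext1 m; simpa [RI_nil h] using hu m⟩
  | n + 1, φ, h, k => by
    obtain ⟨c, a0, a1, h0, h1, e⟩ := RI_dec h
    refine ⟨c, a0, a1, inA_of n h0 fun l hl => ?_, inA_of n h1 fun l hl => ?_, e⟩
    · obtain ⟨u, hu⟩ := k (false :: l) (by simp [hl])
      exact ⟨u, fun m => by simpa [e] using hu m⟩
    · obtain ⟨u, hu⟩ := k (true :: l) (by simp [hl])
      exact ⟨u, fun m => by simpa [e] using hu m⟩

lemma s_trans : ∀ l m : W, l.length = m.length → ∃ t : ℤ, (s ^ t) l = m
  | [], [], _ => ⟨0, rfl⟩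
  | [], _ :: _, h => by simp at h
  | _ :: _, [], h => by simp at h
  | a :: l, b :: m, h => by
    have h' : l.length = m.length := by simpa using h
    have e : ∀ (c : Bool) (k : ℤ), (s ^ (2 * k)) (c :: l) = c :: (s ^ k) l := by
      intro c k
      rw [s_two]; cases c <;> simp
    obtain ⟨t, ht⟩ := s_trans l m h'
    cases a <;> cases b
    · exact ⟨2 * t, by rw [e, ht]⟩
    · refine ⟨1 + 2 * t, ?_⟩
      rw [zpow_add, Equiv.Perm.mul_apply, e, ht]; rfl
    · refine ⟨-1 + 2 * t, ?_⟩
      rw [zpow_add, Equiv.Perm.mul_apply, e, ht]; rfl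
    · exact ⟨2 * t, by rw [e, ht]⟩

abbrev V := Option (Fin 3 × W)
abbrev PV := Equiv.Perm V

def dep : V → ℕ
  | none => 0
  | some p => p.2.length + 1

def gp : V → V → ℕ
  | some p, some q => if p.1 = q.1 then cp p.2 q.2 + 1 else 0
  | _, _ => 0

@[simp] lemma dep_none : dep none = 0 := rfl
@[simp] lemma dep_some (i : Fin 3) (l : W) : dep (some (i, l)) = l.length + 1 := rfl
@[simp] lemma gp_none_l (x : V) : gp none x = 0 := by cases x <;> rfl
@[simp] lemma gp_none_r (x : V) : gp x none = 0 := by cases x <;> rfl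
@[simp] lemma gp_some (i j : Fin 3) (l m : W) :
    gp (some (i, l)) (some (j, m)) = if i = j then cp l m + 1 else 0 := rfl

def d (x y : V) : ℤ := dep x + dep y - 2 * gp x y

@[simp] lemma d_none (x : V) : d none x = dep x := by simp [d]

lemma gp_comm (x y : V) : gp x y = gp y x := by
  rcases x with _ | ⟨i, l⟩ <;> rcases y with _ | ⟨j, m⟩ <;> try simp
  simp [cp_comm l, eq_comm]

lemma d_comm (x y : V) : d x y = d y x := by simp [d, gp_comm x y, add_comm]

lemma gp_le (x y : V) : gp x y ≤ dep x := by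
  rcases x with _ | ⟨i, l⟩ <;> rcases y with _ | ⟨j, m⟩ <;> simp
  have := cp_le l m
  split_ifs <;> omega

lemma gp_ultra (x y z : V) : min (gp x y) (gp y z) ≤ gp x z := by
  rcases x with _ | ⟨i, l⟩ <;> rcases y with _ | ⟨j, m⟩ <;> rcases z with _ | ⟨k, r⟩ <;>
    try simp
  have := cp_ultra l m r
  split_ifs with h1 h2 h3 <;> omega

@[simp] lemma d_self (x : V) : d x x = 0 := by
  rcases x with _ | ⟨i, l⟩ <;> simp [d]
  ring

lemma d_tri (x y z : V) : d x z ≤ d x y + d y z := by
  have h1 := gp_ultra x y z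
  have h2 := gp_le y x
  have h3 := gp_le y z
  rw [gp_comm y x] at h2
  unfold d
  omega

def PWo (g : PV) : Prop :=
  ∃ N : ℕ, ∀ (i : Fin 3) (l : W), N ≤ l.length → ∃ (j : Fin 3) (l' : W) (t : ℤ),
    l.length ≤ l'.length + N ∧ ∀ m, g (some (i, l ++ m)) = some (j, l' ++ (s ^ t) m)

lemma PWo.mul {g k : PV} (hg : PWo g) (hk : PWo k) : PWo (g * k) := by
  obtain ⟨N, hg⟩ := hg
  obtain ⟨M, hk⟩ := hk
  refine ⟨N + M, fun i l hl => ?_⟩
  obtain ⟨j, l', t, h1, h2⟩ := hk i l (by omega)
  obtain ⟨j', l'', t', h3, h4⟩ := hg j l' (by omega)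
  exact ⟨j', l'', t' + t, by omega, fun m => by simp [h2, h4, zpow_add]⟩

def G : Subgroup PV where
  carrier := {g | (∀ x y, d (g x) (g y) = d x y) ∧ PWo g ∧ PWo g⁻¹}
  one_mem' := by
    have : PWo 1 := ⟨0, fun i l _ => ⟨i, l, 0, le_rfl, fun m => rfl⟩⟩
    exact ⟨fun _ _ => rfl, this, by simpa using this⟩
  mul_mem' := fun {a b} ha hb =>
    ⟨fun x y => by simp [ha.1, hb.1], ha.2.1.mul hb.2.1, by
      rw [mul_inv_rev]; exact hb.2.2.mul ha.2.2⟩
  inv_mem' := fun {a} ha =>
    ⟨fun x y => by rw [← ha.1]; simp, ha.2.2, by simpa using ha.2.1⟩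

def topF (π : Fin 3 → Fin 3) (a : Fin 3 → W → W) : V → V
  | none => none
  | some p => some (π p.1, a p.1 p.2)

def top (π : Equiv.Perm (Fin 3)) (a : Fin 3 → PW) : PV where
  toFun := topF π fun i => a i
  invFun := topF π.symm fun j => (a (π.symm j)).symm
  left_inv := by rintro (_ | ⟨i, l⟩) <;> simp [topF]
  right_inv := by rintro (_ | ⟨i, l⟩) <;> simp [topF]

@[simp] lemma top_none (π a) : top π a none = none := rfl
@[simp] lemma top_some (π a) (i : Fin 3) (l : W) : top π a (some (i, l)) = some (π i, a i l) := rfl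

lemma top_inv (π a) : (top π a)⁻¹ = top π⁻¹ fun j => (a (π⁻¹ j))⁻¹ := by
  ext1 x
  rcases x with _ | ⟨i, l⟩ <;> rfl

lemma top_pwo (π) {a : Fin 3 → PW} (ha : ∀ i, a i ∈ A) : PWo (top π a) := by
  choose n hn using ha
  refine ⟨n 0 + n 1 + n 2, fun i l hl => ?_⟩
  obtain ⟨u, hu⟩ := (hn i).sec l (by fin_cases i <;> simp <;> omega)
  exact ⟨π i, a i l, u, by rw [(hn i).ri.1]; omega, fun m => by simp [hu]⟩

lemma top_mem (π) {a : Fin 3 → PW} (ha : ∀ i, a i ∈ A) : top π a ∈ G := by
  refine ⟨fun x y => ?_, top_pwo π ha, ?_⟩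
  · have h : ∀ i, a i ∈ RI := fun i => (ha i).choose_spec.ri
    rcases x with _ | ⟨i, l⟩ <;> rcases y with _ | ⟨j, m⟩ <;> simp [d, (h _).1]
    split_ifs with h1
    · subst h1; rw [(h i).2]
    · rfl
  · rw [top_inv]
    exact top_pwo _ fun j => A.inv_mem (ha _)

lemma lemK {g : PV} (hg : g ∈ G) (h0 : g none = none) :
    ∃ π a, (∀ i, a i ∈ A) ∧ g = top π a := by
  have hd : ∀ x, dep (g x) = dep x := by
    intro x
    have := hg.1 none x
    rw [h0] at this
    simpa using this
  have hp : ∀ x y, gp (g x) (g y) = gp x y := by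
    intro x y
    have := hg.1 x y
    unfold d at this
    rw [hd, hd] at this
    omega
  have e1 : ∀ i, ∃ j, g (some (i, [])) = some (j, []) := by
    intro i
    have := hd (some (i, []))
    rcases h : g (some (i, [])) with _ | ⟨j, l⟩
    · simp [h] at this
    · rw [h] at this
      have : l = [] := by simpa using this
      exact ⟨j, by rw [this]⟩
  choose π hπ using e1
  have e2 : ∀ i l, ∃ l', g (some (i, l)) = some (π i, l') := by
    intro i l
    have := hp (some (i, l)) (some (i, []))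
    rw [hπ] at this
    rcases h : g (some (i, l)) with _ | ⟨j, l'⟩
    · simp [h] at this
    · rw [h] at this
      by_cases h3 : j = π i
      · exact ⟨l', by rw [h3]⟩
      · simp [h3] at this
  choose φ hφ using e2
  have inj : Function.Injective π := by
    intro i j hij
    have : g (some (i, [])) = g (some (j, [])) := by rw [hπ, hπ, hij]
    simpa using g.injective this
  have bij : ∀ i, Function.Bijective (φ i) := by
    intro i
    constructor
    · intro l m hlm
      have : g (some (i, l)) = g (some (i, m)) := by rw [hφ, hφ, hlm]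
      simpa using g.injective this
    · intro l'
      obtain ⟨y, hy⟩ := g.surjective (some (π i, l'))
      have h1 := hp y (some (i, []))
      rw [hy, hπ] at h1
      rcases y with _ | ⟨j, l⟩
      · simp at h1
      · by_cases h3 : j = i
        · subst h3
          rw [hφ] at hy
          exact ⟨l, by simpa using hy⟩
        · simp [h3] at h1
  refine ⟨Equiv.ofBijective π (Finite.injective_iff_bijective.1 inj),
    fun i => Equiv.ofBijective _ (bij i), fun i => ?_, ?_⟩
  · obtain ⟨N, hN⟩ := hg.2.1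
    refine ⟨N, inA_of N ⟨fun l => ?_, fun l m => ?_⟩ fun l hl => ?_⟩
    · have := hd (some (i, l))
      rw [hφ] at this
      simpa using this
    · have := hp (some (i, l)) (some (i, m))
      rw [hφ, hφ] at this
      simpa using this
    · obtain ⟨j, l', t, -, h2⟩ := hN i l hl.ge
      refine ⟨t, fun m => ?_⟩
      have a1 := h2 []
      have a2 := h2 m
      rw [hφ] at a1 a2
      simp only [List.append_nil, RI_nil (RI.zpow_mem s_RI t), Option.some.injEq,
        Prod.mk.injEq] at a1 a2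
      simp [a1.2, a2.2]
  · ext1 x
    rcases x with _ | ⟨i, l⟩
    · simp [h0]
    · simp [hφ]

def hF : V → V
  | none => some (0, [])
  | some (0, l) => some (0, false :: l)
  | some (2, l) => some (0, true :: l)
  | some (1, []) => none
  | some (1, false :: m) => some (1, m)
  | some (1, true :: m) => some (2, m)

def hI : V → V
  | none => some (1, [])
  | some (1, l) => some (1, false :: l)
  | some (2, l) => some (1, true :: l)
  | some (0, []) => none
  | some (0, false :: m) => some (0, m)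
  | some (0, true :: m) => some (2, m)

lemma cases1 {P : V → Prop} (h1 : P none) (h2 : ∀ l, P (some (0, l))) (h3 : ∀ l, P (some (2, l)))
    (h4 : P (some (1, []))) (h5 : ∀ l, P (some (1, false :: l)))
    (h6 : ∀ l, P (some (1, true :: l))) : ∀ x, P x := by
  rintro (_ | ⟨i, l⟩)
  · exact h1
  · fin_cases i
    · exact h2 l
    · rcases l with _ | ⟨_ | _, l⟩
      exacts [h4, h5 l, h6 l]
    · exact h3 l

lemma cases0 {P : V → Prop} (h1 : P none) (h2 : ∀ l, P (some (1, l))) (h3 : ∀ l, P (some (2, l)))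
    (h4 : P (some (0, []))) (h5 : ∀ l, P (some (0, false :: l)))
    (h6 : ∀ l, P (some (0, true :: l))) : ∀ x, P x := by
  rintro (_ | ⟨i, l⟩)
  · exact h1
  · fin_cases i
    · rcases l with _ | ⟨_ | _, l⟩
      exacts [h4, h5 l, h6 l]
    · exact h2 l
    · exact h3 l

def h : PV where
  toFun := hF
  invFun := hI
  left_inv := by apply cases1 <;> intros <;> rfl
  right_inv := by apply cases0 <;> intros <;> rfl

@[simp] lemma h1 : h none = some (0, []) := rfl
@[simp] lemma h2 (l : W) : h (some (0, l)) = some (0, false :: l) := rfl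
@[simp] lemma h3 (l : W) : h (some (2, l)) = some (0, true :: l) := rfl
@[simp] lemma h4 : h (some (1, [])) = none := rfl
@[simp] lemma h5 (l : W) : h (some (1, false :: l)) = some (1, l) := rfl
@[simp] lemma h6 (l : W) : h (some (1, true :: l)) = some (2, l) := rfl
@[simp] lemma i1 : h⁻¹ none = some (1, []) := rfl
@[simp] lemma i2 (l : W) : h⁻¹ (some (1, l)) = some (1, false :: l) := rfl
@[simp] lemma i3 (l : W) : h⁻¹ (some (2, l)) = some (1, true :: l) := rfl
@[simp] lemma i4 : h⁻¹ (some (0, [])) = none := rfl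
@[simp] lemma i5 (l : W) : h⁻¹ (some (0, false :: l)) = some (0, l) := rfl
@[simp] lemma i6 (l : W) : h⁻¹ (some (0, true :: l)) = some (2, l) := rfl

lemma h_mem : h ∈ G := by
  refine ⟨fun x y => ?_, ⟨1, fun i l hl => ?_⟩, ⟨1, fun i l hl => ?_⟩⟩
  · induction x using cases1 <;> induction y using cases1 <;> simp [d] <;> ring
  · fin_cases i
    · exact ⟨0, false :: l, 0, by simp; omega, fun m => rfl⟩
    · rcases l with _ | ⟨_ | _, l⟩
      · simp at hl
      · exact ⟨1, l, 0, by simp, fun m => rfl⟩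
      · exact ⟨2, l, 0, by simp, fun m => rfl⟩
    · exact ⟨0, true :: l, 0, by simp; omega, fun m => rfl⟩
  · fin_cases i
    · rcases l with _ | ⟨_ | _, l⟩
      · simp at hl
      · exact ⟨0, l, 0, by simp, fun m => rfl⟩
      · exact ⟨2, l, 0, by simp, fun m => rfl⟩
    · exact ⟨1, false :: l, 0, by simp; omega, fun m => rfl⟩
    · exact ⟨1, true :: l, 0, by simp; omega, fun m => rfl⟩

lemma h_odd (x : V) : d x (h x) % 2 = 1 := by
  induction x using cases1 <;> simp [d] <;> omega

end Pool.Agent.H.MP_078bdc_al
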