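import Pool.Agent.H.MP_078bdc_al.B

namespace Pool.Agent.H.MP_078bdc_al

def sr : PV := top (finRotate 3) ![1, 1, s]
def at_ (i : Fin 3) (a : PW) : PV := top 1 (Pi.mulSingle i a)

lemma s_A : s ∈ A := ⟨0, inA_s 0⟩
lemma sig_A : sig ∈ A := ⟨1, true, 1, 1, inA_one 0, inA_one 0, rfl⟩

lemma sr_mem : sr ∈ G := top_mem _ fun i => by
  fin_cases i
  exacts [A.one_mem, A.one_mem, s_A]

lemma at_mem (i : Fin 3) {a : PW} (ha : a ∈ A) : at_ i a ∈ G := top_mem _ fun j => by
  by_cases h : j = i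
  · subst h; simpa using ha
  · simp [h]

@[simp] lemma at_none (i a) : at_ i a none = none := rfl
lemma at_some (i j : Fin 3) (a : PW) (l : W) :
    at_ i a (some (j, l)) = some (j, if j = i then a l else l) := by
  by_cases h : j = i
  · subst h; simp [at_]
  · simp [at_, h]

def atH (i : Fin 3) : PW →* PV where
  toFun := at_ i
  map_one' := by
    ext1 x
    rcases x with _ | ⟨j, l⟩
    · rfl
    · simp [at_some]
  map_mul' a b := by
    ext1 x
    rcases x with _ | ⟨j, l⟩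
    · rfl
    · simp only [at_some, Equiv.Perm.mul_apply]
      split_ifs <;> rfl

@[simp] lemma sr0 : sr none = none := rfl
@[simp] lemma sr1 (l : W) : sr (some (0, l)) = some (1, l) := rfl
@[simp] lemma sr2 (l : W) : sr (some (1, l)) = some (2, l) := rfl
@[simp] lemma sr3 (l : W) : sr (some (2, l)) = some (0, s l) := rfl

def Orb (H : Subgroup PV) (x y : V) : Prop := ∃ η ∈ H, η x = y

section
variable {H : Subgroup PV}

lemma Orb.refl (x : V) : Orb H x x := ⟨1, H.one_mem, rfl⟩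
lemma Orb.symm {x y : V} : Orb H x y → Orb H y x := by
  rintro ⟨η, h, rfl⟩
  exact ⟨η⁻¹, H.inv_mem h, by simp⟩
lemma Orb.trans {x y z : V} : Orb H x y → Orb H y z → Orb H x z := by
  rintro ⟨η, h, rfl⟩ ⟨η', h', rfl⟩
  exact ⟨η' * η, H.mul_mem h' h, rfl⟩

lemma sphere (hs : sr ∈ H) {x y : V} (hxy : dep x = dep y) : Orb H x y := by
  have e3 : ∀ l, (sr * sr * sr) (some (0, l)) = some (0, s l) := fun l => rfl
  have e3' : ∀ l, (sr * sr * sr)⁻¹ (some (0, l)) = some (0, s⁻¹ l) := by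
    intro l
    rw [Equiv.Perm.inv_eq_iff_eq, e3]; simp
  have e : ∀ (t : ℤ) (l : W), ((sr * sr * sr) ^ t) (some (0, l)) = some (0, (s ^ t) l) := by
    intro t
    induction t using Int.induction_on with
    | zero => intro l; rfl
    | succ t ih => intro l; rw [zpow_add_one, zpow_add_one, Equiv.Perm.mul_apply, e3, ih]; rfl
    | pred t ih => intro l; rw [zpow_sub_one, zpow_sub_one, Equiv.Perm.mul_apply, e3', ih]; rfl
  have a : ∀ i l, Orb H (some (0, l)) (some (i, l)) := by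
    intro i l
    fin_cases i
    · exact Orb.refl _
    · exact ⟨sr, hs, rfl⟩
    · exact ⟨sr * sr, H.mul_mem hs hs, rfl⟩
  rcases x with _ | ⟨i, l⟩ <;> rcases y with _ | ⟨j, m⟩
  · exact Orb.refl _
  · simp at hxy
  · simp at hxy
  · obtain ⟨t, ht⟩ := s_trans l m (by simpa using hxy)
    refine ((a i l).symm.trans ?_).trans (a j m)
    exact ⟨_, H.zpow_mem (H.mul_mem (H.mul_mem hs hs) hs) t, by rw [e, ht]⟩

def Meets (H : Subgroup PV) (y : PV) : Prop := ∃ k ∈ G, k * y * k⁻¹ ∈ H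

def ET (H : Subgroup PV) : Prop :=
  ∀ x y x' y', d x y = 1 → d x' y' = 1 → ∃ η ∈ H, η x = x' ∧ η y = y'

lemma vtrans (hH : H ≤ G) (hs : sr ∈ H) (hh : Meets H h) (x : V) : Orb H x none := by
  obtain ⟨k, hk, hh⟩ := hh
  set g := k * h * k⁻¹ with hg
  have odd : dep (g none) % 2 = 1 := by
    have e1 := h_odd (k⁻¹ none)
    rw [← hk.1] at e1
    simp only [Equiv.Perm.coe_inv, Equiv.apply_symm_apply, d_none] at e1
    have : g none = k (h (k.symm none)) := rfl
    rw [this]; omega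
  have sph : ∀ x y, d (g none) x = d (g none) y → Orb H x y := by
    intro x y e
    have e1 := (hH hh).1 none (g⁻¹ x)
    have e2 := (hH hh).1 none (g⁻¹ y)
    simp only [Equiv.Perm.coe_inv, Equiv.apply_symm_apply, d_none] at e1 e2
    have o := sphere hs (x := g.symm x) (y := g.symm y) (by omega)
    have o1 : Orb H (g.symm x) x := ⟨g, hh, by simp⟩
    have o2 : Orb H (g.symm y) y := ⟨g, hh, by simp⟩
    exact (o1.symm.trans o).trans o2
  have wit : ∀ a : ℕ, ∃ x y, dep x = a ∧ dep y = a + 2 ∧ Orb H x y := by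
    intro a
    rcases hv : g none with _ | ⟨i, l⟩
    · simp [hv] at odd
    · have c0 : cp l ((!(l.headD false)) :: List.replicate a false) = 0 := by
        rcases l with _ | ⟨_ | _, l⟩ <;> simp
      have ne : i ≠ i + 1 := by fin_cases i <;> simp
      rcases a with _ | a
      · refine ⟨none, some (i, (!(l.headD false)) :: List.replicate 0 false), rfl, rfl, sph _ _ ?_⟩
        rw [hv]; simp only [d, gp_some, c0]; simp
      · refine ⟨some (i + 1, List.replicate a false),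
          some (i, (!(l.headD false)) :: List.replicate (a + 1) false), by simp, by simp,
          sph _ _ ?_⟩
        rw [hv]; simp only [d, gp_some, c0]; simp [ne]; ring
  let P : ℕ → Prop := fun a => ∀ x, dep x = a → Orb H x none
  have step : ∀ a, P a ↔ P (a + 2) := by
    intro a
    obtain ⟨x, y, hx, hy, o⟩ := wit a
    constructor
    · intro p z hz
      exact ((sphere hs (hz.trans hy.symm)).trans o.symm).trans (p x hx)
    · intro p z hz
      exact ((sphere hs (hz.trans hx.symm)).trans o).trans (p y hy)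
  have step2 : ∀ n a, P a ↔ P (a + 2 * n) := by
    intro n a
    induction n with
    | zero => rfl
    | succ n ih => rw [ih, step]; rfl
  have p0 : P 0 := fun z hz => sphere hs hz
  have pg : P (dep (g none)) := fun z hz => (sphere hs hz).trans (Orb.symm ⟨g, hh, rfl⟩)
  have p1 : P 1 := by
    rw [step2 (dep (g none) / 2)]
    convert pg using 1
    omega
  have : P (dep x) := by
    rcases Nat.mod_two_eq_zero_or_one (dep x) with e | e
    · have := (step2 (dep x / 2) 0).1 p0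
      convert this using 1; omega
    · have := (step2 (dep x / 2) 1).1 p1
      convert this using 1; omega
  exact this x rfl

lemma et_of (hH : H ≤ G) (hs : sr ∈ H) (hh : Meets H h) : ET H := by
  have base : ∀ x y, d x y = 1 → ∃ η ∈ H, η x = none ∧ η y = some (0, []) := by
    intro x y e
    obtain ⟨η, hη, hx⟩ := vtrans hH hs hh x
    rw [← (hH hη).1, hx, d_none] at e
    rcases hy : η y with _ | ⟨j, l⟩
    · simp [hy] at e
    · rw [hy] at e
      have : l = [] := by simpa using e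
      subst this
      fin_cases j
      · exact ⟨η, hη, hx, hy⟩
      · exact ⟨sr * sr * η, H.mul_mem (H.mul_mem hs hs) hη, by simp [hx], by
          simp only [Equiv.Perm.mul_apply, hy]; rfl⟩
      · exact ⟨sr * η, H.mul_mem hs hη, by simp [hx], by
          simp only [Equiv.Perm.mul_apply, hy]; rfl⟩
  intro x y x' y' e e'
  obtain ⟨η, hη, a1, a2⟩ := base x y e
  obtain ⟨η', hη', b1, b2⟩ := base x' y' e'
  refine ⟨η'⁻¹ * η, H.mul_mem (H.inv_mem hη') hη, ?_, ?_⟩
  · simp [a1, ← b1]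
  · simp [a2, ← b2]

lemma conj_at (π : Equiv.Perm (Fin 3)) (a : Fin 3 → PW) (i : Fin 3) (y : PW) :
    top π a * at_ i y * (top π a)⁻¹ = at_ (π i) (a i * y * (a i)⁻¹) := by
  rw [mul_inv_eq_iff_eq_mul]
  ext1 x
  rcases x with _ | ⟨j, l⟩
  · rfl
  · simp only [Equiv.Perm.mul_apply, top_some, at_some, EmbeddingLike.apply_eq_iff_eq]
    split_ifs with e
    · subst e; simp
    · rfl

lemma edge_top (hH : H ≤ G) (et : ET H) {k : PV} (hk : k ∈ G) (i j : Fin 3) :
    ∃ η ∈ H, ∃ π a, (∀ i, a i ∈ A) ∧ η * k = top π a ∧ π i = j := by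
  obtain ⟨η, hη, a1, a2⟩ := et (k none) (k (some (i, []))) none (some (j, []))
    (by rw [hk.1]; simp) (by simp)
  obtain ⟨π, a, ha, e⟩ := lemK (G.mul_mem (hH hη) hk) a1
  refine ⟨η, hη, π, a, ha, e, ?_⟩
  have : (η * k) (some (i, [])) = some (j, []) := a2
  rw [e] at this
  simpa using (Prod.mk.inj (Option.some.inj this)).1

lemma final (hH : H ≤ G) (et : ET H) (hh : h ∈ H) (m1 : Meets H (at_ 0 s))
    (m2 : Meets H (at_ 0 sig)) : G ≤ H := by
  have ex : ∀ y, Meets H (at_ 0 y) → ∃ a ∈ A, a * y * a⁻¹ ∈ H.comap (atH 0) := by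
    rintro y ⟨k, hk, hy⟩
    obtain ⟨η, hη, π, a, ha, e, e0⟩ := edge_top hH et hk 0 0
    refine ⟨a 0, ha 0, ?_⟩
    have := H.mul_mem (H.mul_mem hη hy) (H.inv_mem hη)
    have e2 : η * (k * at_ 0 y * k⁻¹) * η⁻¹ = (η * k) * at_ 0 y * (η * k)⁻¹ := by group
    rw [e2, e, conj_at, e0] at this
    exact this
  obtain ⟨a, ha, ha'⟩ := ex _ m1
  obtain ⟨b, hb, hb'⟩ := ex _ m2
  have hl : ∀ y, node false y 1 ∈ H.comap (atH 0) ↔ y ∈ H.comap (atH 0) := by
    intro y
    have e : h * at_ 0 y * h⁻¹ = at_ 0 (node false y 1) := by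
      rw [mul_inv_eq_iff_eq_mul]
      ext1 x
      induction x using cases1 <;> simp [at_some]
    change at_ 0 (node false y 1) ∈ H ↔ at_ 0 y ∈ H
    rw [← e]
    constructor
    · intro hy
      simpa [mul_assoc] using H.mul_mem (H.mul_mem (H.inv_mem hh) hy) hh
    · intro hy
      exact H.mul_mem (H.mul_mem hh hy) (H.inv_mem hh)
  have L0 : ∀ y ∈ A, at_ 0 y ∈ H := lemA hl ha hb ha' hb'
  have Li : ∀ i, ∀ y ∈ A, at_ i y ∈ H := by
    intro i y hy
    obtain ⟨η, hη, π, a, ha, e, e0⟩ := edge_top hH et G.one_mem 0 i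
    rw [mul_one] at e
    have := H.mul_mem (H.mul_mem hη (L0 ((a 0)⁻¹ * y * a 0)
      (A.mul_mem (A.mul_mem (A.inv_mem (ha 0)) hy) (ha 0)))) (H.inv_mem hη)
    rw [e, conj_at, e0] at this
    simpa [mul_assoc] using this
  have t1 : ∀ a : Fin 3 → PW, (∀ i, a i ∈ A) → top 1 a ∈ H := by
    intro a ha
    have : top 1 a = at_ 0 (a 0) * at_ 1 (a 1) * at_ 2 (a 2) := by
      ext1 x
      rcases x with _ | ⟨j, l⟩
      · rfl
      · fin_cases j <;> simp [at_some]
    rw [this]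
    exact H.mul_mem (H.mul_mem (Li _ _ (ha _)) (Li _ _ (ha _))) (Li _ _ (ha _))
  have sw : top (Equiv.swap 0 2) 1 ∈ H := by
    have : top (Equiv.swap 0 2) 1 = h⁻¹ * at_ 0 sig * h := by
      rw [mul_assoc, eq_inv_mul_iff_mul_eq]
      ext1 x
      induction x using cases1 <;> simp [at_some, sig] <;> rfl
    rw [this]
    exact H.mul_mem (H.mul_mem (H.inv_mem hh) (L0 _ sig_A)) hh
  intro g hg
  obtain ⟨η, hη, π, a, ha, e, e1⟩ := edge_top hH et hg 1 1
  have : top π a ∈ H := by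
    have : π = 1 ∨ π = Equiv.swap 0 2 := by
      clear e; revert π; decide
    rcases this with rfl | rfl
    · exact t1 a ha
    · have e3 : top (Equiv.swap 0 2) a = top (Equiv.swap 0 2) 1 * top 1 a := by
        ext1 x
        rcases x with _ | ⟨j, l⟩ <;> rfl
      rw [e3]
      exact H.mul_mem sw (t1 a ha)
  rw [← e] at this
  simpa using H.mul_mem (H.inv_mem hη) this

def cj (H : Subgroup PV) (k : PV) : Subgroup PV := H.comap (MulAut.conj k).toMonoidHom

lemma mem_cj {k x : PV} : x ∈ cj H k ↔ k * x * k⁻¹ ∈ H := Iff.rfl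

lemma cj_le (hH : H ≤ G) {k : PV} (hk : k ∈ G) : cj H k ≤ G := by
  intro x hx
  have := G.mul_mem (G.mul_mem (G.inv_mem hk) (hH (mem_cj.1 hx))) hk
  simpa [mul_assoc] using this

lemma Meets.cj {y k : PV} (hk : k ∈ G) : Meets H y → Meets (cj H k) y := by
  rintro ⟨k1, hk1, hy⟩
  refine ⟨k⁻¹ * k1, G.mul_mem (G.inv_mem hk) hk1, mem_cj.2 ?_⟩
  simpa [mul_assoc] using hy

lemma ET.of_cj {k : PV} (hk : k ∈ G) (et : ET (cj H k)) : ET H := by
  intro x y x' y' e e'
  have hk' := G.inv_mem hk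
  obtain ⟨η, hη, a1, a2⟩ := et (k⁻¹ x) (k⁻¹ y) (k⁻¹ x') (k⁻¹ y') (by rw [hk'.1, e])
    (by rw [hk'.1, e'])
  exact ⟨_, mem_cj.1 hη, by rw [Equiv.Perm.mul_apply, Equiv.Perm.mul_apply, a1]; simp,
    by rw [Equiv.Perm.mul_apply, Equiv.Perm.mul_apply, a2]; simp⟩

lemma ET.cj {k : PV} (hk : k ∈ G) (et : ET H) : ET (cj H k) := by
  intro x y x' y' e e'
  obtain ⟨η, hη, a1, a2⟩ := et (k x) (k y) (k x') (k y') (by rw [hk.1, e]) (by rw [hk.1, e'])
  exact ⟨k⁻¹ * η * k, mem_cj.2 (by simpa [mul_assoc] using hη), by simp [a1], by simp [a2]⟩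

theorem main (hH : H ≤ G) (m0 : Meets H sr) (mh : Meets H h) (m1 : Meets H (at_ 0 s))
    (m2 : Meets H (at_ 0 sig)) : G ≤ H := by
  have et : ET H := by
    obtain ⟨k, hk, hs⟩ := m0
    exact ET.of_cj hk (et_of (cj_le hH hk) (mem_cj.2 hs) (mh.cj hk))
  obtain ⟨k, hk, hh⟩ := mh
  have := final (cj_le hH hk) (et.cj hk) (mem_cj.2 hh) (m1.cj hk) (m2.cj hk)
  intro g hg
  have := mem_cj.1 (this (G.mul_mem (G.mul_mem (G.inv_mem hk) hg) hk))
  simpa [mul_assoc] using this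

end

lemma G_et : ET G := et_of le_rfl sr_mem ⟨1, G.one_mem, by simpa using h_mem⟩

lemma G_vt (x : V) : ∃ g ∈ G, g x = none :=
  vtrans le_rfl sr_mem ⟨1, G.one_mem, by simpa using h_mem⟩ x

theorem fig : ∃ S : Finset G, ∀ c : G → G,
    Subgroup.closure ((fun y => c y * y * (c y)⁻¹) '' (S : Set G)) = ⊤ := by
  classical
  refine ⟨{⟨sr, sr_mem⟩, ⟨h, h_mem⟩, ⟨_, at_mem 0 s_A⟩, ⟨_, at_mem 0 sig_A⟩}, fun c => ?_⟩
  set K := Subgroup.closure ((fun y => c y * y * (c y)⁻¹) ''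
    (({⟨sr, sr_mem⟩, ⟨h, h_mem⟩, ⟨_, at_mem 0 s_A⟩, ⟨_, at_mem 0 sig_A⟩} : Finset G) : Set G))
  have m : ∀ y : G, y ∈ ({⟨sr, sr_mem⟩, ⟨h, h_mem⟩, ⟨_, at_mem 0 s_A⟩, ⟨_, at_mem 0 sig_A⟩} :
      Finset G) → Meets (K.map G.subtype) y := fun y hy =>
    ⟨c y, (c y).2, ⟨_, Subgroup.subset_closure ⟨y, hy, rfl⟩, rfl⟩⟩
  have := main (H := K.map G.subtype) (Subgroup.map_subtype_le K) (m ⟨sr, sr_mem⟩ (by simp))
    (m ⟨h, h_mem⟩ (by simp)) (m ⟨_, at_mem 0 s_A⟩ (by simp)) (m ⟨_, at_mem 0 sig_A⟩ (by simp))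
  rw [eq_top_iff]
  intro g _
  obtain ⟨y, hy, e⟩ := this g.2
  rwa [← Subtype.ext e]

end Pool.Agent.H.MP_078bdc_al
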