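import Pool.Agent.H.MP_078bdc_al.C

namespace Pool.Agent.H.MP_078bdc_al

open Filter

def X : Type := {f : V → ℝ // ∃ (u v : V) (t : ℝ), d u v = 1 ∧ 0 ≤ t ∧ t ≤ 1 ∧
  f = fun y => (1 - t) * d u y + t * d v y}

lemma d_abs (u v y : V) : |(d u y : ℝ) - d v y| ≤ d u v := by
  have h1 := d_tri u v y
  have h2 := d_tri v u y
  rw [d_comm v u] at h2
  have h1' : (d u y : ℝ) ≤ d u v + d v y := by exact_mod_cast h1
  have h2' : (d v y : ℝ) ≤ d u v + d u y := by exact_mod_cast h2
  rw [abs_le]; constructor <;> linarith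

lemma near0 (f : X) : ∃ u, ∀ y, |f.1 y - d u y| ≤ 1 := by
  obtain ⟨u, v, t, e, h0, h1, hf⟩ := f.2
  refine ⟨u, fun y => ?_⟩
  have := d_abs v u y
  rw [d_comm v u, e] at this
  rw [hf]
  have e2 : (1 - t) * (d u y : ℝ) + t * d v y - d u y = t * (d v y - d u y) := by ring
  simp only [e2, abs_mul, abs_of_nonneg h0]
  have := mul_le_mul h1 this (abs_nonneg _) zero_le_one
  simpa using this

lemma bdd (f g : X) : BddAbove (Set.range fun y => |f.1 y - g.1 y|) := by
  obtain ⟨u, hu⟩ := near0 f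
  obtain ⟨v, hv⟩ := near0 g
  refine ⟨2 + d u v, ?_⟩
  rintro _ ⟨y, rfl⟩
  have h1 := abs_le.1 (hu y)
  have h2 := abs_le.1 (hv y)
  have h3 := abs_le.1 (d_abs u v y)
  simp only
  rw [abs_le]; constructor <;> linarith [h1.1, h1.2, h2.1, h2.2, h3.1, h3.2]

noncomputable instance : MetricSpace X where
  dist f g := ⨆ y, |f.1 y - g.1 y|
  dist_self f := by simp
  dist_comm f g := by simp only [abs_sub_comm]
  dist_triangle f g k := ciSup_le fun y =>
    (abs_sub_le _ (g.1 y) _).trans (add_le_add (le_ciSup (bdd f g) y) (le_ciSup (bdd g k) y))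
  eq_of_dist_eq_zero := by
    intro f g e
    apply Subtype.ext
    funext y
    have : |f.1 y - g.1 y| ≤ 0 := (le_ciSup (bdd f g) y).trans e.le
    exact sub_eq_zero.1 (abs_nonpos_iff.1 this)

lemma le_dist (f g : X) (y : V) : |f.1 y - g.1 y| ≤ dist f g := le_ciSup (bdd f g) y
lemma dist_le {f g : X} {c : ℝ} (h : ∀ y, |f.1 y - g.1 y| ≤ c) : dist f g ≤ c := ciSup_le h

def actF (g : G) (f : X) : X := ⟨fun y => f.1 ((g : PV)⁻¹ y), by
  obtain ⟨u, v, t, e, h0, h1, hf⟩ := f.2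
  refine ⟨g.1 u, g.1 v, t, by rw [g.2.1, e], h0, h1, ?_⟩
  funext y
  rw [hf]
  simp only
  rw [← g.2.1 u, ← g.2.1 v]; simp⟩

noncomputable def actE (g : G) : X ≃ᵢ X where
  toFun := actF g
  invFun := actF g⁻¹
  left_inv f := Subtype.ext (funext fun y => by simp [actF])
  right_inv f := Subtype.ext (funext fun y => by simp [actF])
  isometry_toFun := Isometry.of_dist_eq fun f k =>
    Equiv.iSup_comp (g := fun y => |f.1 y - k.1 y|) ((g : PV)⁻¹)

noncomputable def act : G →* (X ≃ᵢ X) where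
  toFun := actE
  map_one' := by ext f; rfl
  map_mul' a b := by ext f; rfl

lemma cp_app (l m : W) : cp l (l ++ m) = l.length := by
  induction l with
  | nil => simp
  | cons a l ih => simp [ih]

def vx (u : V) : X := ⟨fun y => d u y, by
  have : ∃ v, d u v = 1 := by
    rcases u with _ | ⟨i, l⟩
    · exact ⟨some (0, []), by simp⟩
    · exact ⟨some (i, l ++ [false]), by simp [d, cp_app]; ring⟩
  obtain ⟨v, hv⟩ := this
  exact ⟨u, v, 0, hv, le_rfl, zero_le_one, by funext y; simp⟩⟩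

lemma act_vx (g : G) (u : V) : act g (vx u) = vx (g.1 u) := by
  apply Subtype.ext
  funext y
  change (d u ((g : PV)⁻¹ y) : ℝ) = d (g.1 u) y
  rw [← g.2.1 u]; simp

lemma dist_vx (u v : V) : dist (vx u) (vx v) = d u v := by
  refine le_antisymm (dist_le fun y => d_abs u v y) ?_
  have := (le_abs_self _).trans (le_dist (vx u) (vx v) v)
  have e : (vx u).1 v - (vx v).1 v = d u v := by simp [vx]
  rwa [e] at this

lemma near (f : X) : ∃ u, dist f (vx u) ≤ 1 := by
  obtain ⟨u, hu⟩ := near0 f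
  exact ⟨u, dist_le hu⟩

lemma dist_near {f g : X} {u v : V} {a b : ℝ} (hf : dist f (vx u) ≤ a) (hg : dist g (vx v) ≤ b) :
    dist f g ≤ d u v + (a + b) ∧ d u v ≤ dist f g + (a + b) := by
  rw [← dist_vx]
  have h1 := dist_triangle4 f (vx u) (vx v) g
  have h2 := dist_triangle4 (vx u) f g (vx v)
  rw [dist_comm (vx v) g] at h1
  rw [dist_comm (vx u) f] at h2
  constructor <;> linarith

lemma four (w x y z : V) :
    min (d w x + d w y - d x y) (d w y + d w z - d y z) ≤ d w x + d w z - d x z := by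
  obtain ⟨g, hg, e⟩ := G_vt w
  simp only [← hg.1 w, ← hg.1 x, ← hg.1 y, e, d_none]
  have := gp_ultra (g x) (g y) (g z)
  unfold d
  omega

theorem hyp (w x y z : X) :
    min ((dist w x + dist w y - dist x y) / 2) ((dist w y + dist w z - dist y z) / 2) - 6 ≤
      (dist w x + dist w z - dist x z) / 2 := by
  obtain ⟨w', hw⟩ := near w
  obtain ⟨x', hx⟩ := near x
  obtain ⟨y', hy⟩ := near y
  obtain ⟨z', hz⟩ := near z
  have := four w' x' y' z'
  obtain ⟨a1, a2⟩ := dist_near hw hx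
  obtain ⟨b1, b2⟩ := dist_near hw hy
  obtain ⟨c1, c2⟩ := dist_near hw hz
  obtain ⟨d1, d2⟩ := dist_near hx hy
  obtain ⟨e1, e2⟩ := dist_near hx hz
  obtain ⟨f1, f2⟩ := dist_near hy hz
  rcases min_le_iff.1 this with k | k
  · have k' : (d w' x' : ℝ) + d w' y' - d x' y' ≤ d w' x' + d w' z' - d x' z' := by
      exact_mod_cast k
    have := min_le_left ((dist w x + dist w y - dist x y) / 2)
      ((dist w y + dist w z - dist y z) / 2)
    linarith
  · have k' : (d w' y' : ℝ) + d w' z' - d y' z' ≤ d w' x' + d w' z' - d x' z' := by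
      exact_mod_cast k
    have := min_le_right ((dist w x + dist w y - dist x y) / 2)
      ((dist w y + dist w z - dist y z) / 2)
    linarith

lemma lip (a : ℕ → ℝ) (ha : ∀ i, |a (i + 1) - a i| ≤ 1) {n n' : ℕ} {t t' : ℝ} (h0 : 0 ≤ t)
    (h1 : t ≤ 1) (h0' : 0 ≤ t') (hn : n ≤ n') (hle : n + t ≤ n' + t') :
    |((1 - t) * a n + t * a (n + 1)) - ((1 - t') * a n' + t' * a (n' + 1))| ≤
      n' + t' - (n + t) := by
  have ch : ∀ i k : ℕ, |a (i + k) - a i| ≤ k := by
    intro i k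
    induction k with
    | zero => simp
    | succ k ih =>
      have := abs_sub_le (a (i + k + 1)) (a (i + k)) (a i)
      have := ha (i + k)
      push_cast
      rw [← add_assoc]; linarith
  rcases hn.eq_or_lt with rfl | hlt
  · have e : ((1 - t) * a n + t * a (n + 1)) - ((1 - t') * a n + t' * a (n + 1)) =
        -((t' - t) * (a (n + 1) - a n)) := by ring
    have p : 0 ≤ t' - t := by linarith
    rw [e, abs_neg, abs_mul, abs_of_nonneg p]
    have := mul_le_mul_of_nonneg_left (ha n) p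
    linarith
  · obtain ⟨k, rfl⟩ : ∃ k, n' = n + 1 + k := ⟨n' - (n + 1), by omega⟩
    have k1 := abs_le.1 (ch (n + 1) k)
    have k2 := abs_le.1 (ha n)
    have k3 := abs_le.1 (ha (n + 1 + k))
    push_cast
    rw [abs_le]
    constructor <;> nlinarith [k1.1, k1.2, k2.1, k2.2, k3.1, k3.2]

def ray (ω : ℕ → Bool) : ℕ → V
  | 0 => none
  | i + 1 => some (0, (List.range i).map ω)

lemma ray_dep (ω) (i : ℕ) : dep (ray ω i) = i := by cases i <;> simp [ray]

lemma ray_adj (ω) (i : ℕ) : d (ray ω i) (ray ω (i + 1)) = 1 := by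
  cases i with
  | zero => simp [ray]
  | succ i => simp [ray, d, List.range_succ, cp_app]; ring

noncomputable def gam (ω : ℕ → Bool) (τ : ℝ) : X :=
  ⟨_, ray ω ⌊τ⌋₊, ray ω (⌊τ⌋₊ + 1), Int.fract τ, ray_adj ω _, Int.fract_nonneg τ,
    (Int.fract_lt_one τ).le, rfl⟩

lemma fl {τ : ℝ} (h : 0 ≤ τ) : (⌊τ⌋₊ : ℝ) + Int.fract τ = τ := by
  rw [natCast_floor_eq_intCast_floor h]; exact Int.floor_add_fract τ

lemma gam_dist0 (ω) {σ τ : ℝ} (h0 : 0 ≤ σ) (h : σ ≤ τ) : dist (gam ω σ) (gam ω τ) = τ - σ := by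
  have a := fl h0
  have b := fl (h0.trans h)
  refine le_antisymm (dist_le fun y => ?_) ?_
  · have := lip (fun i => (d (ray ω i) y : ℝ)) (fun i => by
      have := d_abs (ray ω (i + 1)) (ray ω i) y
      rw [d_comm (ray ω (i + 1)) (ray ω i), ray_adj] at this
      simpa using this) (Int.fract_nonneg σ) (Int.fract_lt_one σ).le (Int.fract_nonneg τ)
      (Nat.floor_le_floor h) (by rw [a, b]; exact h)
    rw [a, b] at this
    exact this
  · have := le_dist (gam ω τ) (gam ω σ) none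
    rw [dist_comm] at this
    refine le_trans (le_of_eq ?_) ((le_abs_self _).trans this)
    simp only [gam, d_comm _ none, d_none, ray_dep]
    push_cast
    linarith

lemma gam_dist (ω) {σ τ : ℝ} (h0 : 0 ≤ σ) (h1 : 0 ≤ τ) : dist (gam ω σ) (gam ω τ) = |σ - τ| := by
  rcases le_total σ τ with h | h
  · rw [gam_dist0 ω h0 h, abs_sub_comm, abs_of_nonneg (by linarith)]
  · rw [dist_comm, gam_dist0 ω h1 h, abs_of_nonneg (by linarith)]

def OnE (f : X) (u v : V) : Prop :=
  ∃ t : ℝ, 0 ≤ t ∧ t ≤ 1 ∧ f.1 = fun y => (1 - t) * d u y + t * d v y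

lemma OnE.symm {f u v} : OnE f u v → OnE f v u := by
  rintro ⟨t, h0, h1, e⟩
  exact ⟨1 - t, by linarith, by linarith, by rw [e]; funext y; ring⟩

lemma OnE.act {f u v} (g : G) : OnE f u v → OnE (act g f) (g.1 u) (g.1 v) := by
  rintro ⟨t, h0, h1, e⟩
  refine ⟨t, h0, h1, ?_⟩
  funext y
  change f.1 ((g : PV)⁻¹ y) = _
  rw [e]
  simp only
  rw [← g.2.1 u, ← g.2.1 v]; simp

lemma OnE.gam {f : X} {ω} {n : ℕ} : OnE f (ray ω n) (ray ω (n + 1)) → ∃ τ, 0 ≤ τ ∧ gam ω τ = f := by
  rintro ⟨t, h0, h1, e⟩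
  refine ⟨n + t, by positivity, Subtype.ext ?_⟩
  rw [e]
  rcases h1.eq_or_lt with rfl | h1
  · have : (n : ℝ) + 1 = ((n + 1 : ℕ) : ℝ) := by push_cast; rfl
    funext y
    simp only [MP_078bdc_al.gam, this, Nat.floor_natCast, Int.fract_natCast]
    ring
  · have e1 : ⌊(n : ℝ) + t⌋₊ = n := by
      rw [Nat.floor_eq_iff (by positivity)]
      constructor <;> linarith
    have e2 : Int.fract ((n : ℝ) + t) = t := by
      rw [Int.fract_natCast_add, Int.fract_eq_self.2 ⟨h0, h1⟩]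
    simp only [MP_078bdc_al.gam, e1, e2]

lemma edge_ray (l : W) (b : V) (h1 : dep b = l.length) (h2 : gp b (some (0, l)) = l.length) :
    ∃ ω n, b = ray ω n ∧ some (0, l) = ray ω (n + 1) := by
  have tk : ∀ k ≤ l.length, l.take k = (List.range k).map fun n => l.getD n false := by
    intro k hk
    apply List.ext_getElem
    · simp [hk]
    · intro i a1 a2
      have : i < l.length := by simp at a1; omega
      simp [this]
  refine ⟨fun n => l.getD n false, l.length, ?_, by simp only [ray]; rw [← tk _ le_rfl]; simp⟩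
  rcases b with _ | ⟨j, m⟩
  · simp only [dep_none] at h1
    rw [← h1]; rfl
  · simp only [dep_some, gp_some] at h1 h2
    split_ifs at h2 with h3
    · rw [← h1]
      simp only [ray]
      rw [← tk _ (by omega), ← cp_take m l (by omega), h3]
    · omega

lemma geo_ray (f g : X) : ∃ (k : G) (ω : ℕ → Bool) (σ τ : ℝ), 0 ≤ σ ∧ 0 ≤ τ ∧
    gam ω σ = act k f ∧ gam ω τ = act k g := by
  obtain ⟨u, v, t, e, h0, h1, hf⟩ := f.2
  obtain ⟨u', v', t', e', h0', h1', hg⟩ := g.2
  have of : OnE f u v := ⟨t, h0, h1, hf⟩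
  have og : OnE g u' v' := ⟨t', h0', h1', hg⟩
  obtain ⟨a, a', ea, oa, lt⟩ : ∃ a a', d a a' = 1 ∧ OnE f a a' ∧ d a' u' < d a u' := by
    rcases lt_trichotomy (d u u') (d v u') with c | c | c
    · exact ⟨v, u, by rw [d_comm, e], of.symm, c⟩
    · exfalso
      unfold d at e c
      omega
    · exact ⟨u, v, e, of, c⟩
  obtain ⟨k, hk, k1, k2⟩ := G_et a a' none (some (0, [])) ea (by simp)
  have oa' := oa.act ⟨k, hk⟩
  have og' := og.act ⟨k, hk⟩
  simp only [k1, k2] at oa' og'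
  rw [← hk.1 a', ← hk.1 a, k1, k2] at lt
  rw [← hk.1] at e'
  obtain ⟨l, hl⟩ : ∃ l, k u' = some (0, l) := by
    rcases hb : k u' with _ | ⟨j, l⟩
    · simp [hb, d] at lt
    · by_cases c : 0 = j
      · exact ⟨l, by rw [c]⟩
      · simp [hb, d, c] at lt
        omega
  rw [hl] at og' e'
  obtain ⟨ω, n, on⟩ : ∃ ω n, OnE (act ⟨k, hk⟩ g) (ray ω n) (ray ω (n + 1)) := by
    have g1 := gp_le (some (0, l)) (k v')
    have g2 := gp_le (k v') (some (0, l))
    rw [gp_comm (k v')] at g2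
    unfold d at e'
    rw [dep_some] at e' g1
    by_cases c : dep (k v') = l.length
    · obtain ⟨ω, n, b1, b2⟩ := edge_ray l (k v') c (by rw [gp_comm]; omega)
      exact ⟨ω, n, by rw [← b1, ← b2]; exact og'.symm⟩
    · rcases hb : k v' with _ | ⟨j, m⟩
      · rw [hb] at e' c
        simp only [dep_none, gp_none_r] at e' c
        omega
      · have c0 : 0 = j := by
          by_contra c0
          simp [hb, c0] at e'
          omega
        subst c0
        rw [hb] at og' e' g1 g2 c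
        rw [dep_some] at e' g2 c
        obtain ⟨ω, n, b1, b2⟩ := edge_ray m (some (0, l)) (by rw [dep_some]; omega) (by omega)
        exact ⟨ω, n, by rw [← b1, ← b2]; exact og'⟩
  obtain ⟨σ, s0, s1⟩ := OnE.gam (ω := ω) (n := 0) oa'
  obtain ⟨τ, t0, t1⟩ := on.gam
  exact ⟨⟨k, hk⟩, ω, σ, τ, s0, t0, s1, t1⟩

theorem geo (f g : X) : ∃ γ : ℝ → X, γ 0 = f ∧ γ (dist f g) = g ∧
    ∀ a ∈ Set.Icc 0 (dist f g), ∀ b ∈ Set.Icc 0 (dist f g), dist (γ a) (γ b) = |a - b| := by
  obtain ⟨k, ω, σ, τ, s0, t0, s1, t1⟩ := geo_ray f g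
  have e : dist f g = |σ - τ| := by rw [← gam_dist ω s0 t0, s1, t1, (act k).dist_eq]
  rcases le_total σ τ with c | c
  · rw [abs_sub_comm, abs_of_nonneg (by linarith)] at e
    refine ⟨fun a => (act k).symm (gam ω (σ + a)), by simp [s1], by simp [e, t1], ?_⟩
    intro a ha b hb
    rw [(act k).symm.dist_eq, gam_dist ω (by linarith [ha.1]) (by linarith [hb.1])]
    congr 1; ring
  · rw [abs_of_nonneg (by linarith)] at e
    refine ⟨fun a => (act k).symm (gam ω (σ - a)), by simp [s1], by simp [e, t1], ?_⟩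
    intro a ha b hb
    rw [e] at ha hb
    rw [(act k).symm.dist_eq, gam_dist ω (by linarith [ha.2]) (by linarith [hb.2]), abs_sub_comm]
    congr 1; ring

lemma h_dep (n : ℤ) : (dep ((h ^ n) none) : ℤ) = |n| := by
  have p : ∀ m : ℕ, (h ^ (m + 1)) none = some (0, List.replicate m false) := by
    intro m
    induction m with
    | zero => rfl
    | succ m ih => rw [pow_succ', Equiv.Perm.mul_apply, ih]; rfl
  have q : ∀ m : ℕ, (h⁻¹ ^ (m + 1)) none = some (1, List.replicate m false) := by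
    intro m
    induction m with
    | zero => rfl
    | succ m ih => rw [pow_succ', Equiv.Perm.mul_apply, ih]; rfl
  rcases n with (_ | m) | m
  · simp
  · rw [Int.ofNat_eq_natCast, zpow_natCast, p]; simp; rfl
  · rw [zpow_negSucc, ← inv_pow, q]; simp; rfl

def kk : G := ⟨at_ 0 sig * at_ 1 sig, G.mul_mem (at_mem 0 sig_A) (at_mem 1 sig_A)⟩
def g1 : G := ⟨h, h_mem⟩
def g2 : G := kk * g1 * kk⁻¹

lemma kk_none : kk.1 none = none := rfl
lemma kk_none' : kk.1⁻¹ none = none := rfl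

theorem lox1 (n : ℤ) : 1 * |(n : ℝ)| ≤ dist (vx none) ((act g1 ^ n) (vx none)) := by
  rw [← map_zpow, act_vx, dist_vx, d_none]
  have : (g1 ^ n).1 = h ^ n := by simp [g1]
  rw [this, h_dep]; simp

theorem lox2 (n : ℤ) : 1 * |(n : ℝ)| ≤ dist (vx none) ((act g2 ^ n) (vx none)) := by
  rw [← map_zpow, act_vx, dist_vx, g2, conj_zpow]
  have : (kk * g1 ^ n * kk⁻¹).1 none = kk.1 ((h ^ n) none) := by
    have : (g1 ^ n).1 = h ^ n := by simp [g1]
    rw [← this]; rfl
  rw [this]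
  conv_rhs => rw [← kk_none, kk.2.1, kk_none, d_none, h_dep]
  simp

lemma sep (y : V) : gp y (g1.1 y) ≤ 1 ∨ gp y (g2.1 y) ≤ 1 := by
  have a : ∀ z, ¬ gp z (h z) ≤ 1 → ∃ m, z = some (0, false :: m) ∨ z = some (1, false :: m) := by
    intro z
    induction z using cases1 with
    | h2 l => rcases l with _ | ⟨_ | _, l⟩ <;> simp
    | _ => simp
  by_contra c
  push Not at c
  obtain ⟨m, hm⟩ := a y c.1.not_ge
  have e : gp y (g2.1 y) = gp (kk.1⁻¹ y) (h (kk.1⁻¹ y)) := by
    have k1 := (kk⁻¹).2.1 y (g2.1 y)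
    have k2 := (kk⁻¹).2.1 none (g2.1 y)
    have k3 := (kk⁻¹).2.1 none y
    have k4 : (kk⁻¹).1 (g2.1 y) = h (kk.1⁻¹ y) := by simp [g2, g1]
    have k5 : (kk⁻¹).1 none = none := rfl
    have k6 : (kk⁻¹).1 y = kk.1⁻¹ y := rfl
    rw [k4, k6] at k1
    rw [k4, k5] at k2
    rw [k5, k6] at k3
    simp only [d_none] at k2 k3
    unfold d at k1
    omega
  obtain ⟨m', hm'⟩ := a (kk.1⁻¹ y) (by rw [← e]; exact c.2.not_ge)
  rw [Equiv.Perm.inv_eq_iff_eq, Equiv.Perm.inv_eq_iff_eq] at hm'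
  rcases hm with rfl | rfl <;> simp [kk, at_some, sig] at hm'

theorem nofix (f : X) :
    (dist (vx none) f + dist (vx none) (act g1 f) - dist f (act g1 f)) / 2 ≤ 3 ∨
    (dist (vx none) f + dist (vx none) (act g2 f) - dist f (act g2 f)) / 2 ≤ 3 := by
  obtain ⟨y, hy⟩ := near f
  have k : ∀ g : G, gp y (g.1 y) ≤ 1 →
      (dist (vx none) f + dist (vx none) (act g f) - dist f (act g f)) / 2 ≤ 3 := by
    intro g hg
    have hy' : dist (act g f) (vx (g.1 y)) ≤ 1 := by rw [← act_vx, (act g).dist_eq]; exact hy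
    have z : dist (vx none) (vx none) ≤ 0 := by simp
    have a := (dist_near z hy).1
    have b := (dist_near z hy').1
    have c := (dist_near hy hy').2
    have e : d none y + d none (g.1 y) - d y (g.1 y) ≤ 2 := by
      simp only [d_none]; unfold d; omega
    have e' : (d none y : ℝ) + d none (g.1 y) - d y (g.1 y) ≤ 2 := by exact_mod_cast e
    linarith
  exact (sep y).imp (k g1) (k g2)

end Pool.Agent.H.MP_078bdc_al
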